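import Pool.Agent.W2helper5.KA.Stm3

/-!
# Piece ACO of project KA3: the antipode is anti-comultiplicative
-/

set_option autoImplicit false

namespace Pool.Agent.W2helper85.KA3

open TensorProduct WithConv Pool.Agent.W2helper5.KA3

section

variable (K H : Type) [Field K] [Ring H] [HopfAlgebra K H]

/-- `Δ (S x) = S x₂ ⊗ S x₁` -/
theorem comul_antipode :
    Coalgebra.comul (R := K) (A := H) ∘ₗ HopfAlgebra.antipode (R := K) (A := H) =
      TensorProduct.map (HopfAlgebra.antipode (R := K) (A := H))
        (HopfAlgebra.antipode (R := K) (A := H)) ∘ₗ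
        (TensorProduct.comm K H H).toLinearMap ∘ₗ Coalgebra.comul (R := K) (A := H) := by
  let S : H →ₗ[K] H := HopfAlgebra.antipode (R := K) (A := H)
  let iL : H →ₐ[K] H ⊗[K] H := Algebra.TensorProduct.includeLeft
  let iR : H →ₐ[K] H ⊗[K] H := Algebra.TensorProduct.includeRight
  have hδ : toConv (Coalgebra.comul (R := K) (A := H)) =
      toConv iL.toLinearMap * toConv iR.toLinearMap := by
    apply WithConv.ext
    rw [LinearMap.convMul_def]
    have h1 : LinearMap.mul' K (H ⊗[K] H) ∘ₗ TensorProduct.map iL.toLinearMap iR.toLinearMap =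
        LinearMap.id := by
      apply TensorProduct.ext'
      intro a b
      change iL a * iR b = a ⊗ₜ b
      simp [iL, iR]
    change Coalgebra.comul (R := K) (A := H) = LinearMap.mul' K (H ⊗[K] H) ∘ₗ
      TensorProduct.map iL.toLinearMap iR.toLinearMap ∘ₗ Coalgebra.comul (R := K) (A := H)
    rw [← LinearMap.comp_assoc, h1, LinearMap.id_comp]
  have hG : toConv (TensorProduct.map S S ∘ₗ (TensorProduct.comm K H H).toLinearMap ∘ₗ
      Coalgebra.comul (R := K) (A := H)) =
      toConv (iR.toLinearMap ∘ₗ S) * toConv (iL.toLinearMap ∘ₗ S) := by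
    apply WithConv.ext
    rw [LinearMap.convMul_def]
    have h1 : LinearMap.mul' K (H ⊗[K] H) ∘ₗ
        TensorProduct.map (iR.toLinearMap ∘ₗ S) (iL.toLinearMap ∘ₗ S) =
        TensorProduct.map S S ∘ₗ (TensorProduct.comm K H H).toLinearMap := by
      apply TensorProduct.ext'
      intro a b
      change iR (S a) * iL (S b) = S b ⊗ₜ S a
      simp [iL, iR]
    change TensorProduct.map S S ∘ₗ (TensorProduct.comm K H H).toLinearMap ∘ₗ
      Coalgebra.comul (R := K) (A := H) = LinearMap.mul' K (H ⊗[K] H) ∘ₗ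
      TensorProduct.map (iR.toLinearMap ∘ₗ S) (iL.toLinearMap ∘ₗ S) ∘ₗ
        Coalgebra.comul (R := K) (A := H)
    rw [← LinearMap.comp_assoc, ← LinearMap.comp_assoc, h1]
  have hone : ∀ h : H →ₐ[K] H ⊗[K] H,
      toConv (h.toLinearMap ∘ₗ S) * toConv h.toLinearMap = 1 := by
    intro h
    have h1 := LinearMap.algHom_comp_convMul_distrib h (toConv S) (toConv LinearMap.id)
    rw [LinearMap.antipode_mul_id] at h1
    apply WithConv.ext
    have h2 : (toConv (h.toLinearMap ∘ₗ S) * toConv h.toLinearMap).ofConv =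
        h.toLinearMap.comp (1 : WithConv (H →ₗ[K] H)).ofConv := h1.symm
    rw [h2]
    apply LinearMap.ext
    intro x
    change h (algebraMap K H (Coalgebra.counit (R := K) x)) =
      algebraMap K (H ⊗[K] H) (Coalgebra.counit (R := K) x)
    exact h.commutes _
  have h1 : toConv (TensorProduct.map S S ∘ₗ (TensorProduct.comm K H H).toLinearMap ∘ₗ
      Coalgebra.comul (R := K) (A := H)) * toConv (Coalgebra.comul (R := K) (A := H)) = 1 := by
    rw [hG, hδ, mul_assoc, ← mul_assoc (toConv (iL.toLinearMap ∘ₗ S)), hone, one_mul, hone]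
  have h2 := left_inv_eq_right_inv h1 (LinearMap.comul_right_inv (R := K) (C := H))
  exact (WithConv.toConv_injective h2).symm

end

theorem ACO : Pool.Agent.W2helper5.KA3.P_ACO := by
  intro K H _ _ _ Sinv h1 h2
  refine ⟨fun f g => ?_, ?_⟩
  · have hS : ∀ (φ ψ : H →ₗ[K] K), φ ∘ₗ HopfAlgebra.antipode (R := K) (A := H) =
        ψ ∘ₗ HopfAlgebra.antipode (R := K) (A := H) → φ = ψ := by
      intro φ ψ h
      have h3 := congrArg (fun χ : H →ₗ[K] K => χ ∘ₗ Sinv) h
      simp only [LinearMap.comp_assoc, h2, LinearMap.comp_id] at h3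
      exact h3
    apply hS
    have e1 : (cv g f ∘ₗ Sinv) ∘ₗ HopfAlgebra.antipode (R := K) (A := H) = cv g f := by
      rw [LinearMap.comp_assoc, h1, LinearMap.comp_id]
    rw [e1]
    unfold cv
    rw [LinearMap.comp_assoc, LinearMap.comp_assoc, comul_antipode]
    have e2 : LinearMap.mul' K K ∘ₗ TensorProduct.map (f ∘ₗ Sinv) (g ∘ₗ Sinv) ∘ₗ
        TensorProduct.map (HopfAlgebra.antipode (R := K) (A := H))
          (HopfAlgebra.antipode (R := K) (A := H)) ∘ₗ (TensorProduct.comm K H H).toLinearMap =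
        LinearMap.mul' K K ∘ₗ TensorProduct.map g f := by
      apply TensorProduct.ext'
      intro a b
      have e3 : ∀ x : H, Sinv (HopfAlgebra.antipode (R := K) (A := H) x) = x := fun x =>
        LinearMap.congr_fun h1 x
      change f (Sinv (HopfAlgebra.antipode (R := K) (A := H) b)) *
        g (Sinv (HopfAlgebra.antipode (R := K) (A := H) a)) = g a * f b
      rw [e3, e3, mul_comm]
    have e4 := congrArg (fun χ : H ⊗[K] H →ₗ[K] K => χ ∘ₗ Coalgebra.comul (R := K) (A := H)) e2
    simp only [LinearMap.comp_assoc] at e4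
    exact e4
  · have h3 : Coalgebra.counit (R := K) (A := H) ∘ₗ HopfAlgebra.antipode (R := K) (A := H) =
        Coalgebra.counit (R := K) (A := H) := HopfAlgebra.counit_comp_antipode
    calc Coalgebra.counit (R := K) (A := H) ∘ₗ Sinv
        = (Coalgebra.counit (R := K) (A := H) ∘ₗ HopfAlgebra.antipode (R := K) (A := H)) ∘ₗ Sinv := by
          rw [h3]
      _ = Coalgebra.counit (R := K) (A := H) := by
          rw [LinearMap.comp_assoc, h2, LinearMap.comp_id]

end Pool.Agent.W2helper85.KA3
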